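import Pool.Agent.V5helper41.PD.Stm

/-!
# Project PD, job NIN: numbers which are not algebraic integers
-/

set_option autoImplicit false

namespace V5helper54.PD

open IntermediateField Polynomial
open Pool.Agent.H58P (Qb)
open Pool.Agent.W237.RK
open V5helper41.PD

theorem nin_aux {K : Type*} [Field K] [CharZero K] (x : K) (hx : IsIntegral ℚ x)
    (hn : ¬ IsIntegral ℤ x) :
    Real.log 2 ≤ (minpoly ℚ x).natDegree * NumberField.absLogHeight₁ x := by
  unfold NumberField.absLogHeight₁ NumberField.absMulHeight₁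
  rw [dif_pos hx]
  haveI : FiniteDimensional ℚ ℚ⟮x⟯ := adjoin.finiteDimensional hx
  haveI : NumberField ℚ⟮x⟯ := {}
  rw [Real.log_rpow (Height.mulHeight₁_pos _)]
  have hd : (minpoly ℚ x).natDegree = Module.finrank ℚ ℚ⟮x⟯ := (adjoin.finrank hx).symm
  have h0 : (Module.finrank ℚ ℚ⟮x⟯ : ℝ) ≠ 0 := by
    have : 0 < Module.finrank ℚ ℚ⟮x⟯ := Module.finrank_pos
    exact_mod_cast this.ne'
  rw [hd, ← mul_assoc, mul_inv_cancel₀ h0, one_mul]
  obtain ⟨n, hn0, hn1, hn2⟩ := NumberField.exists_nat_le_mulHeight₁ (AdjoinSimple.gen ℚ x)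
  have h2 : 2 ≤ n := by
    rcases Nat.lt_or_ge n 2 with h | h
    · exfalso
      have h1 : n = 1 := by omega
      rw [h1, Nat.cast_one, one_mul] at hn2
      apply hn
      have h3 := hn2.map (algebraMap ℚ⟮x⟯ K).toIntAlgHom
      exact h3
    · exact h
  exact Real.log_le_log (by norm_num) (le_trans (by exact_mod_cast h2) hn1)

/-- **Job NIN.** -/
theorem t_NIN : S_NIN := by
  intro α hα
  have hx0 : @IsIntegral ℚ Qb _ _ (DivisionRing.toRatAlgebra) α := by
    have := Pool.Agent.H58P.qb_isIntegral α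
    convert this
  have h := @nin_aux Qb _ _ α hx0 hα
  convert h

end V5helper54.PD
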